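import Pool.Agent.Helper57.REC.Stmts1

/-! REC module PUN: the sum of the weights over the totally positive units `≡ 1`. [helper65] -/

set_option autoImplicit false

open scoped Classical
open NumberField NumberField.Units NumberField.Units.dirichletUnitTheorem

namespace REC
namespace PUN

open Pool.Agent.Helper13.ZL (Pl q HasMean)

/-! ### the sum of a product over `ℤ^r` -/

theorem hasSum_pi (r : ℕ) (f : Fin r → ℤ → ℝ) (h0 : ∀ i n, 0 ≤ f i n)
    (h : ∀ i, HasSum (f i) 1) : HasSum (fun n : Fin r → ℤ => ∏ i, f i (n i)) 1 := by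
  induction r with
  | zero =>
    have := hasSum_unique (fun n : Fin 0 → ℤ => ∏ i, f i (n i))
    rw [Finset.univ_eq_empty, Finset.prod_empty] at this
    exact this
  | succ r ih =>
    have h1 : HasSum (fun n : Fin r → ℤ => ∏ i : Fin r, f i.succ (n i)) 1 :=
      ih (fun i => f i.succ) (fun i n => h0 _ _) (fun i => h _)
    have p1 : (0 : ℤ → ℝ) ≤ f 0 := fun n => h0 _ _
    have p2 : (0 : (Fin r → ℤ) → ℝ) ≤ fun n => ∏ i : Fin r, f i.succ (n i) :=
      fun n => Finset.prod_nonneg fun i _ => h0 _ _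
    have hs := Summable.mul_of_nonneg (h 0).summable h1.summable p1 p2
    have h2 := HasSum.mul (h 0) h1 hs
    rw [mul_one] at h2
    rw [← (Fin.consEquiv (fun _ : Fin (r + 1) => ℤ)).hasSum_iff]
    have h3 : (fun n : Fin (r + 1) → ℤ => ∏ i, f i (n i)) ∘
        (Fin.consEquiv (fun _ : Fin (r + 1) => ℤ)) =
        fun x : ℤ × (Fin r → ℤ) => f 0 x.1 * ∏ i : Fin r, f i.succ (x.2 i) := by
      funext x
      rw [Function.comp_apply, Fin.prod_univ_succ]
      rfl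
    rw [h3]
    exact h2

variable {F : Type} [Field F] [NumberField F]

/-! ### coordinates -/

/-- the coordinates of a unit -/
noncomputable def co (u : (𝓞 F)ˣ) (i : Fin (Units.rank F)) : ℤ :=
  (basisUnitLattice F).repr ⟨logEmbedding F (Additive.ofMul u), ⟨Additive.ofMul u, trivial, rfl⟩⟩ i

theorem co_mul (u v : (𝓞 F)ˣ) (i : Fin (Units.rank F)) : co (u * v) i = co u i + co v i := by
  unfold co
  rw [← Finsupp.add_apply, ← map_add]
  congr 2
  exact Subtype.ext (map_add (logEmbedding F) (Additive.ofMul u) (Additive.ofMul v))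

theorem co_one (i : Fin (Units.rank F)) : co (1 : (𝓞 F)ˣ) i = 0 := by
  have := co_mul (1 : (𝓞 F)ˣ) 1 i
  rw [mul_one] at this
  omega

/-- as a homomorphism -/
noncomputable def coHom (i : Fin (Units.rank F)) : (𝓞 F)ˣ →* Multiplicative ℤ where
  toFun u := Multiplicative.ofAdd (co u i)
  map_one' := by rw [co_one]; rfl
  map_mul' u v := by rw [co_mul]; rfl

theorem co_fund (i j : Fin (Units.rank F)) : co (fundSystem F i) j = if i = j then 1 else 0 := by
  unfold co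
  have : (⟨logEmbedding F (Additive.ofMul (fundSystem F i)), ⟨Additive.ofMul _, trivial, rfl⟩⟩ :
      unitLattice F) = basisUnitLattice F i := Subtype.ext (logEmbedding_fundSystem F i)
  rw [this, Module.Basis.repr_self, Finsupp.single_apply]

theorem co_zpow (u : (𝓞 F)ˣ) (n : ℤ) (i : Fin (Units.rank F)) : co (u ^ n) i = n * co u i := by
  have := map_zpow (coHom (F := F) i) u n
  have h2 : Multiplicative.toAdd (coHom i (u ^ n)) = Multiplicative.toAdd ((coHom i u) ^ n) := by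
    rw [this]
  simpa [coHom, toAdd_zpow] using h2

theorem co_prod (n : Fin (Units.rank F) → ℤ) (j : Fin (Units.rank F)) :
    co (∏ i, fundSystem F i ^ n i) j = n j := by
  have h3 : ∀ s : Finset (Fin (Units.rank F)),
      co (∏ i ∈ s, fundSystem F i ^ n i) j = ∑ i ∈ s, co (fundSystem F i ^ n i) j := by
    intro s
    induction s using Finset.induction_on with
    | empty => rw [Finset.prod_empty, Finset.sum_empty, co_one]
    | insert a s ha ih => rw [Finset.prod_insert ha, Finset.sum_insert ha, co_mul, ih]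
  rw [h3]
  simp [co_zpow, co_fund]

theorem uco_unit (u : (𝓞 F)ˣ) (x : mixedEmbedding.mixedSpace F) (hx : mixedEmbedding.norm x ≠ 0)
    (i : Fin (Units.rank F)) : uco (mixedEmbedding F (u : 𝓞 F) * x) i = co u i + uco x i := by
  unfold uco co
  have h1 : mixedEmbedding.logMap (mixedEmbedding F (u : 𝓞 F) * x) =
      logEmbedding F (Additive.ofMul u) + mixedEmbedding.logMap x :=
    mixedEmbedding.logMap_unit_smul u hx
  rw [h1, map_add, Finsupp.add_apply]
  congr 1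
  exact (basisUnitLattice F).ofZLatticeBasis_repr_apply ℝ (unitLattice F)
    ⟨logEmbedding F (Additive.ofMul u), ⟨Additive.ofMul u, trivial, rfl⟩⟩ i

/-! ### the group of totally positive units congruent to `1` -/

/-- the subgroup -/
def U1 (B : Finset (Pl F)) (N : ℕ) : Subgroup (𝓞 F)ˣ where
  carrier := {u | TotPos ((u : 𝓞 F) : F) ∧ ∀ v ∈ B, (u : 𝓞 F) - 1 ∈ v.asIdeal ^ N}
  one_mem' := ⟨fun σ => by simp, fun v _ => by simp⟩
  mul_mem' := by
    rintro a b ⟨ha, ha'⟩ ⟨hb, hb'⟩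
    refine ⟨fun σ => ?_, fun v hv => ?_⟩
    · have : ((((a * b : (𝓞 F)ˣ)) : 𝓞 F) : F) = ((a : 𝓞 F) : F) * ((b : 𝓞 F) : F) := by simp
      rw [this, map_mul]
      exact mul_pos (ha σ) (hb σ)
    · have : ((a * b : (𝓞 F)ˣ) : 𝓞 F) - 1 = (a : 𝓞 F) * ((b : 𝓞 F) - 1) + ((a : 𝓞 F) - 1) := by
        push_cast
        ring
      rw [this]
      exact Ideal.add_mem _ (Ideal.mul_mem_left _ _ (hb' v hv)) (ha' v hv)
  inv_mem' := by
    rintro a ⟨ha, ha'⟩
    refine ⟨fun σ => ?_, fun v hv => ?_⟩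
    · have h1 : σ ((a : 𝓞 F) : F) * σ (((a⁻¹ : (𝓞 F)ˣ) : 𝓞 F) : F) = 1 := by
        rw [← map_mul, ← map_mul]
        simp
      have h2 := ha σ
      by_contra h3
      have : σ ((a : 𝓞 F) : F) * σ (((a⁻¹ : (𝓞 F)ˣ) : 𝓞 F) : F) ≤ 0 :=
        mul_nonpos_of_nonneg_of_nonpos h2.le (not_lt.1 h3)
      linarith
    · have : ((a⁻¹ : (𝓞 F)ˣ) : 𝓞 F) - 1 = -((a⁻¹ : (𝓞 F)ˣ) : 𝓞 F) * ((a : 𝓞 F) - 1) := by
        have : ((a⁻¹ : (𝓞 F)ˣ) : 𝓞 F) * (a : 𝓞 F) = 1 := by simp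
        linear_combination this
      rw [this]
      exact Ideal.mul_mem_left _ _ (ha' v hv)

theorem exists_pow (B : Finset (Pl F)) (N : ℕ) :
    ∃ M : ℕ, 0 < M ∧ ∀ u : (𝓞 F)ˣ, u ^ M ∈ U1 B N := by
  have hfin : ∀ v : Pl F, Finite (𝓞 F ⧸ v.asIdeal ^ N) := fun v =>
    Ideal.finiteQuotientOfFreeOfNeBot _ (pow_ne_zero _ v.ne_bot)
  have key : ∀ v : Pl F, ∃ k : ℕ, 0 < k ∧ ∀ u : (𝓞 F)ˣ, ∀ m : ℕ,
      ((u ^ (k * m) : (𝓞 F)ˣ) : 𝓞 F) - 1 ∈ v.asIdeal ^ N := by
    intro v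
    have := hfin v
    have : Finite (𝓞 F ⧸ v.asIdeal ^ N)ˣ := inferInstance
    refine ⟨Nat.card (𝓞 F ⧸ v.asIdeal ^ N)ˣ, Nat.card_pos, fun u m => ?_⟩
    rw [← Ideal.Quotient.eq_zero_iff_mem, map_sub, map_one, sub_eq_zero]
    have h1 : (Units.map (Ideal.Quotient.mk (v.asIdeal ^ N)).toMonoidHom u) ^
        (Nat.card (𝓞 F ⧸ v.asIdeal ^ N)ˣ * m) = 1 := by
      rw [pow_mul, pow_card_eq_one', one_pow]
    have h2 := congrArg Units.val h1
    rw [← map_pow] at h2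
    simpa using h2
  choose k hk hk' using key
  refine ⟨2 * ∏ v ∈ B, k v, by
    have : 0 < ∏ v ∈ B, k v := Finset.prod_pos fun v _ => hk v
    omega, fun u => ⟨fun σ => ?_, fun v hv => ?_⟩⟩
  · have h0 : σ ((u : 𝓞 F) : F) ≠ 0 := by
      have : ((u : 𝓞 F) : F) ≠ 0 := by
        have h := u.ne_zero
        exact fun h' => h (by exact_mod_cast h')
      exact (map_ne_zero σ).2 this
    have : ((((u ^ (2 * ∏ v ∈ B, k v) : (𝓞 F)ˣ)) : 𝓞 F) : F) =
        ((u : 𝓞 F) : F) ^ (2 * ∏ v ∈ B, k v) := by simp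
    rw [this, map_pow, pow_mul]
    positivity
  · have : 2 * ∏ v ∈ B, k v = k v * (2 * ∏ v ∈ B.erase v, k v) := by
      rw [← Finset.mul_prod_erase B k hv]
      ring
    rw [this]
    exact hk' v u _

/-- the products of `M`-th powers of fundamental units -/
noncomputable def ph (M : ℕ) (n : Fin (Units.rank F) → ℤ) : (𝓞 F)ˣ :=
  ∏ i, fundSystem F i ^ (M * n i)

theorem co_ph (M : ℕ) (n : Fin (Units.rank F) → ℤ) (j : Fin (Units.rank F)) :
    co (ph M n) j = M * n j := co_prod (fun i => M * n i) j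

theorem ph_mem {B : Finset (Pl F)} {N M : ℕ} (hM : ∀ u : (𝓞 F)ˣ, u ^ M ∈ U1 B N)
    (n : Fin (Units.rank F) → ℤ) : ph M n ∈ U1 B N := by
  unfold ph
  refine Subgroup.prod_mem _ fun i _ => ?_
  rw [zpow_mul, zpow_natCast]
  exact Subgroup.zpow_mem _ (hM _) _

theorem ph_sub (M : ℕ) (n m : Fin (Units.rank F) → ℤ) :
    ph M (fun i => n i - m i) = (ph M m)⁻¹ * ph M n := by
  unfold ph
  rw [← Finset.prod_inv_distrib, ← Finset.prod_mul_distrib]
  refine Finset.prod_congr rfl fun i _ => ?_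
  rw [← zpow_neg, ← zpow_add]
  congr 1
  ring

theorem ph_add (M : ℕ) (n m : Fin (Units.rank F) → ℤ) :
    ph M (fun i => n i + m i) = ph M n * ph M m := by
  unfold ph
  rw [← Finset.prod_mul_distrib]
  refine Finset.prod_congr rfl fun i _ => ?_
  rw [← zpow_add]
  congr 1
  ring

/-- the subgroup of `U1` of the `ph M n` -/
noncomputable def V {B : Finset (Pl F)} {N M : ℕ} (hM : ∀ u : (𝓞 F)ˣ, u ^ M ∈ U1 B N) :
    Subgroup (U1 B N) where
  carrier := {u | ∃ n, u = ⟨ph M n, ph_mem hM n⟩}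
  one_mem' := ⟨fun _ => 0, Subtype.ext (by simp [ph])⟩
  mul_mem' := by
    rintro _ _ ⟨n, rfl⟩ ⟨m, rfl⟩
    exact ⟨fun i => n i + m i, Subtype.ext (ph_add M n m).symm⟩
  inv_mem' := by
    rintro _ ⟨n, rfl⟩
    refine ⟨fun i => 0 - n i, Subtype.ext ?_⟩
    have h0 : ph (F := F) M (fun _ => 0) = 1 := by simp [ph]
    have h := ph_sub M (fun _ => 0) n
    rw [h0, mul_one] at h
    exact h.symm

theorem finite_quot {B : Finset (Pl F)} {N M : ℕ} (hM0 : 0 < M)
    (hM : ∀ u : (𝓞 F)ˣ, u ^ M ∈ U1 B N) : Finite (U1 B N ⧸ V hM) := by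
  have hdec : ∀ u : U1 B N, ∃ (ζ : torsion F) (e : Fin (Units.rank F) → ℤ),
      (u : (𝓞 F)ˣ) = ζ * ∏ i, (fundSystem F i) ^ (e i) := by
    intro u
    obtain ⟨⟨ζ, e⟩, h, -⟩ := exist_unique_eq_mul_prod F (u : (𝓞 F)ˣ)
    exact ⟨ζ, e, h⟩
  choose ζ e he using hdec
  have : NeZero M := ⟨hM0.ne'⟩
  let f : U1 B N → torsion F × (Fin (Units.rank F) → ZMod M) := fun u =>
    (ζ u, fun i => ((e u i : ℤ) : ZMod M))
  have hf : ∀ u u' : U1 B N, f u = f u' → u⁻¹ * u' ∈ V hM := by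
    intro u u' h
    have h1 : ζ u = ζ u' := congrArg Prod.fst h
    have h2 : ∀ i, ((e u i : ℤ) : ZMod M) = ((e u' i : ℤ) : ZMod M) := fun i =>
      congrFun (congrArg Prod.snd h) i
    have h3 : ∀ i, ∃ n : ℤ, e u' i - e u i = M * n := fun i => by
      have := (ZMod.intCast_eq_intCast_iff_dvd_sub _ _ _).1 (h2 i)
      exact this
    choose n hn using h3
    refine ⟨n, Subtype.ext ?_⟩
    have h4 : ((u⁻¹ * u' : U1 B N) : (𝓞 F)ˣ) = (u : (𝓞 F)ˣ)⁻¹ * (u' : (𝓞 F)ˣ) := rfl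
    rw [h4, he u, he u', h1]
    unfold ph
    simp_rw [← hn, sub_eq_add_neg, zpow_add, Finset.prod_mul_distrib, zpow_neg,
      Finset.prod_inv_distrib]
    group
    exact mul_comm _ _
  refine Finite.of_injective (fun Q : U1 B N ⧸ V hM => f Q.out) ?_
  intro Q Q' h
  have := hf _ _ h
  rw [← QuotientGroup.eq, QuotientGroup.out_eq', QuotientGroup.out_eq'] at this
  exact this

/-- the group is the product of the quotient and of `ℤ ^ r` -/
noncomputable def eqv {B : Finset (Pl F)} {N M : ℕ} (hM0 : 0 < M)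
    (hM : ∀ u : (𝓞 F)ˣ, u ^ M ∈ U1 B N) :
    (U1 B N ⧸ V hM) × (Fin (Units.rank F) → ℤ) ≃ U1 B N :=
  Equiv.ofBijective (fun p => p.1.out * ⟨ph M p.2, ph_mem hM p.2⟩) (by
    constructor
    · rintro ⟨Q, n⟩ ⟨Q', n'⟩ h
      simp only at h
      have hQ : Q = Q' := by
        have h1 : (QuotientGroup.mk (Q.out * ⟨ph M n, ph_mem hM n⟩) : U1 B N ⧸ V hM) =
            QuotientGroup.mk (Q'.out * ⟨ph M n', ph_mem hM n'⟩) := by rw [h]
        have h2 : ∀ (R : U1 B N ⧸ V hM) (m : Fin (Units.rank F) → ℤ),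
            (QuotientGroup.mk (R.out * ⟨ph M m, ph_mem hM m⟩) : U1 B N ⧸ V hM) = R := by
          intro R m
          rw [QuotientGroup.mk_mul_of_mem _ (show _ ∈ V hM from ⟨m, rfl⟩), QuotientGroup.out_eq']
        rwa [h2, h2] at h1
      subst hQ
      have h3 : ph M n = ph M n' := congrArg Subtype.val (mul_left_cancel h)
      have : n = n' := by
        funext j
        have h4 := congrArg (fun u => co u j) h3
        simp only [co_ph] at h4
        exact mul_left_cancel₀ (by exact_mod_cast hM0.ne') h4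
      rw [this]
    · intro u
      have h1 : (QuotientGroup.mk u : U1 B N ⧸ V hM).out⁻¹ * u ∈ V hM := by
        rw [← QuotientGroup.eq, QuotientGroup.out_eq']
      obtain ⟨n, hn⟩ := h1
      refine ⟨(QuotientGroup.mk u, n), ?_⟩
      simp only
      rw [← hn, mul_inv_cancel_left])

theorem tent_nonneg (t : ℝ) : 0 ≤ tent t := le_max_left _ _

theorem wt_pos (M : ℕ) (x : F) (hx : TotPos x) : wt M (mixedEmbedding F x) =
    ∏ i, tent (uco (mixedEmbedding F x) i / M) := by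
  unfold wt
  rw [if_pos]
  intro w
  rw [mixedEmbedding.mixedEmbedding_apply_isReal]
  exact hx _

omit [NumberField F] in
theorem totPos_mul {x y : F} (hx : TotPos x) (hy : TotPos y) : TotPos (x * y) := fun σ => by
  rw [map_mul]
  exact mul_pos (hx σ) (hy σ)

end PUN

theorem st_PUN (hTEN : ST_TEN) : ST_PUN := by
  intro F _ _ B N
  obtain ⟨M, hM0, hM⟩ := PUN.exists_pow B N
  have hfin := PUN.finite_quot hM0 hM
  have := Fintype.ofFinite (PUN.U1 B N ⧸ PUN.V hM)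
  refine ⟨M, Nat.card (PUN.U1 B N ⧸ PUN.V hM), hM0, Nat.card_pos, fun x hx hxp => ?_⟩
  set f : PUN.U1 B N → ℝ := fun u => wt M (mixedEmbedding F (((u : (𝓞 F)ˣ) : 𝓞 F) * x : F))
    with hf
  change HasSum f _
  rw [← (PUN.eqv hM0 hM).hasSum_iff]
  have hnorm : ∀ y : F, y ≠ 0 → mixedEmbedding.norm (mixedEmbedding F y) ≠ 0 := by
    intro y hy h
    rw [mixedEmbedding.norm_eq_zero_iff' (Set.mem_range_self y)] at h
    exact hy ((map_eq_zero (mixedEmbedding F)).1 h)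
  have hMR : (M : ℝ) ≠ 0 := by exact_mod_cast hM0.ne'
  have hval : ∀ p, (f ∘ PUN.eqv hM0 hM) p = ∏ i, tent (uco (mixedEmbedding F
      ((((p.1.out : PUN.U1 B N) : (𝓞 F)ˣ) : 𝓞 F) * x : F)) i / M + p.2 i) := by
    rintro ⟨Q, n⟩
    have h1 : (PUN.eqv hM0 hM (Q, n)) = Q.out * ⟨PUN.ph M n, PUN.ph_mem hM n⟩ := rfl
    have hq := Q.out.2
    have h2 : TotPos (((((Q.out : PUN.U1 B N) : (𝓞 F)ˣ) : 𝓞 F) : F) * x) :=
      PUN.totPos_mul Q.out.2.1 hxp
    have h3 : ((((Q.out : PUN.U1 B N) : (𝓞 F)ˣ) : 𝓞 F) : F) * x ≠ 0 := by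
      refine mul_ne_zero ?_ hx
      intro h
      exact ((Q.out : PUN.U1 B N) : (𝓞 F)ˣ).ne_zero (by exact_mod_cast h)
    have h4 : (((((Q.out * ⟨PUN.ph M n, PUN.ph_mem hM n⟩ : PUN.U1 B N)) : (𝓞 F)ˣ) : 𝓞 F) : F) * x
        = ((PUN.ph M n : 𝓞 F) : F) * (((((Q.out : PUN.U1 B N) : (𝓞 F)ˣ) : 𝓞 F) : F) * x) := by
      have : ((Q.out * ⟨PUN.ph M n, PUN.ph_mem hM n⟩ : PUN.U1 B N) : (𝓞 F)ˣ) =
        ((Q.out : PUN.U1 B N) : (𝓞 F)ˣ) * PUN.ph M n := rfl
      rw [this]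
      push_cast
      ring
    rw [Function.comp_apply, h1]
    simp only [hf]
    rw [h4, PUN.wt_pos M _ (PUN.totPos_mul (PUN.ph_mem hM n).1 h2), map_mul]
    refine Finset.prod_congr rfl fun i _ => ?_
    rw [PUN.uco_unit _ _ (hnorm _ h3), PUN.co_ph]
    congr 1
    push_cast
    field_simp
    ring
  have hfib : ∀ Q : PUN.U1 B N ⧸ PUN.V hM, HasSum (fun n => (f ∘ PUN.eqv hM0 hM) (Q, n)) 1 := by
    intro Q
    simp_rw [hval]
    exact PUN.hasSum_pi _ (fun i (m : ℤ) => tent (uco (mixedEmbedding F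
      ((((Q.out : PUN.U1 B N) : (𝓞 F)ˣ) : 𝓞 F) * x : F)) i / M + m))
      (fun _ _ => PUN.tent_nonneg _) (fun i => hTEN.2.2.2 _)
  have hsum : Summable (f ∘ PUN.eqv hM0 hM) := by
    rw [summable_prod_of_nonneg]
    · exact ⟨fun Q => (hfib Q).summable, Summable.of_finite⟩
    · intro p
      rw [hval]
      exact Finset.prod_nonneg fun _ _ => PUN.tent_nonneg _
  have h1 := hsum.hasSum
  have h2 := h1.prod_fiberwise hfib
  have h3 := h2.unique (hasSum_fintype _)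
  rw [h3] at h1
  convert h1 using 1
  simp [Nat.card_eq_fintype_card]

end REC
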