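import Pool.Agent.Helper57.REC.Stmts1

/-! REC module TEN: the tent function. [helper65] -/

set_option autoImplicit false

namespace REC

theorem tent_eq_zero {t : ℝ} (h : 1 ≤ |t|) : tent t = 0 := by
  unfold tent
  exact max_eq_left (by linarith)

theorem tent_hasSum (t : ℝ) : HasSum (fun n : ℤ => tent (t + n)) 1 := by
  have h0 : 0 ≤ Int.fract t := Int.fract_nonneg t
  have h1 : Int.fract t < 1 := Int.fract_lt_one t
  have hf : t = Int.fract t + ⌊t⌋ := (Int.fract_add_floor t).symm
  have key : ∑ n ∈ ({-⌊t⌋, -⌊t⌋ - 1} : Finset ℤ), tent (t + n) = 1 := by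
    rw [Finset.sum_pair (by omega)]
    push_cast
    have e1 : t + -(⌊t⌋ : ℝ) = Int.fract t := by linarith
    have e2 : t + (-(⌊t⌋ : ℝ) - 1) = Int.fract t - 1 := by linarith
    rw [e1, e2]
    unfold tent
    rw [abs_of_nonneg h0, abs_of_nonpos (by linarith), max_eq_right (by linarith),
      max_eq_right (by linarith)]
    ring
  rw [← key]
  apply hasSum_sum_of_ne_finset_zero
  intro n hn
  simp only [Finset.mem_insert, Finset.mem_singleton, not_or] at hn
  apply tent_eq_zero
  rcases lt_trichotomy n (-⌊t⌋) with h | h | h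
  · have h' : n + 2 ≤ -⌊t⌋ := by omega
    have h'' : ((n : ℝ) + 2) ≤ -(⌊t⌋ : ℝ) := by exact_mod_cast h'
    rw [abs_of_nonpos (by linarith)]
    linarith
  · exact absurd h hn.1
  · have h' : -⌊t⌋ + 1 ≤ n := by omega
    have h'' : -(⌊t⌋ : ℝ) + 1 ≤ (n : ℝ) := by exact_mod_cast h'
    rw [abs_of_nonneg (by linarith)]
    linarith

theorem st_TEN : ST_TEN := by
  refine ⟨fun t => ⟨le_max_left _ _, ?_⟩, fun t h => tent_eq_zero h, fun s t => ?_, tent_hasSum⟩
  · unfold tent
    exact max_le (by norm_num) (by linarith [abs_nonneg t])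
  · unfold tent
    have h1 : |max (0:ℝ) (1 - |s|) - max 0 (1 - |t|)| ≤ |(1 - |s|) - (1 - |t|)| := by
      have := abs_max_sub_max_le_max (0:ℝ) (1 - |s|) 0 (1 - |t|)
      simpa using this
    refine h1.trans ?_
    have : (1 - |s|) - (1 - |t|) = |t| - |s| := by ring
    rw [this]
    have := abs_abs_sub_abs_le_abs_sub t s
    rwa [abs_sub_comm t s] at this

end REC
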