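import Pool.Agent.Helper57.REC.Stmts6b
import Pool.Agent.Helper85.REC.Line

/-! REC module GLD: the group lemma for a square class. [helper65] -/

set_option autoImplicit false

namespace REC
namespace GLD

variable {l : ℕ} [Fact l.Prime]

/-- powers of `X + l ^ j Y Z` with `Z ^ 2 = D` -/
theorem pw (Z : Matrix (Fin 2) (Fin 2) ℤ_[l]) (D X Y : ℤ_[l]) (j : ℕ)
    (hZ : Z * Z = D • (1 : Matrix (Fin 2) (Fin 2) ℤ_[l])) (hD : (l : ℤ_[l]) ^ 2 ∣ D) (n : ℕ) :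
    ∃ P R : ℤ_[l], (X • (1 : Matrix (Fin 2) (Fin 2) ℤ_[l]) + ((l : ℤ_[l]) ^ j * Y) • Z) ^ n =
      P • (1 : Matrix (Fin 2) (Fin 2) ℤ_[l]) + ((l : ℤ_[l]) ^ j * R) • Z ∧
      (l : ℤ_[l]) ^ 2 ∣ P - X ^ n ∧ (l : ℤ_[l]) ^ 2 ∣ X * R - n * X ^ n * Y := by
  induction n with
  | zero => exact ⟨1, 0, by simp, by simp, by simp⟩
  | succ n ih =>
    obtain ⟨P, R, h1, h2, h3⟩ := ih
    refine ⟨X * P + (l : ℤ_[l]) ^ j * Y * ((l : ℤ_[l]) ^ j * R) * D, X * R + Y * P, ?_, ?_, ?_⟩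
    · rw [pow_succ, h1, Matrix.add_mul, Matrix.mul_add, Matrix.mul_add]
      simp only [Matrix.smul_mul, Matrix.mul_smul, Matrix.one_mul, Matrix.mul_one, hZ, smul_smul]
      ext a b
      simp only [Matrix.add_apply, Matrix.smul_apply, smul_eq_mul]
      ring
    · obtain ⟨e, he⟩ := h2
      obtain ⟨f, hf⟩ := hD
      refine ⟨X * e + (l : ℤ_[l]) ^ j * Y * ((l : ℤ_[l]) ^ j * R) * f, ?_⟩
      rw [hf]
      linear_combination X * he
    · obtain ⟨e, he⟩ := h2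
      obtain ⟨f, hf⟩ := h3
      refine ⟨X * f + X * Y * e, ?_⟩
      push_cast
      linear_combination X * hf + X * Y * he

theorem unit_or_dvd (x : ℤ_[l]) : IsUnit x ∨ (l : ℤ_[l]) ∣ x := by
  by_cases h : IsUnit x
  · exact Or.inl h
  · right
    rw [← Ideal.mem_span_singleton, ← PadicInt.maximalIdeal_eq_span_p]
    exact h

theorem not_dvd_of_unit {x : ℤ_[l]} (h : IsUnit x) : ¬ (l : ℤ_[l]) ∣ x := fun h1 =>
  PadicInt.prime_p.not_isUnit (isUnit_of_dvd_unit h1 h)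

theorem unit_of_dvd_sub {x y : ℤ_[l]} (hx : IsUnit x) (h : (l : ℤ_[l]) ∣ y - x) : IsUnit y := by
  rcases unit_or_dvd y with h1 | h1
  · exact h1
  · exact absurd (by simpa using dvd_sub h1 h) (not_dvd_of_unit hx)

/-- `A ^ (l ^ j)` -/
theorem pwl (Z : Matrix (Fin 2) (Fin 2) ℤ_[l]) (D a : ℤ_[l]) (ha : IsUnit a)
    (hZ : Z * Z = D • (1 : Matrix (Fin 2) (Fin 2) ℤ_[l])) (hD : (l : ℤ_[l]) ^ 2 ∣ D) (j : ℕ) :
    ∃ X Y : ℤ_[l], IsUnit X ∧ IsUnit Y ∧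
      (a • (1 : Matrix (Fin 2) (Fin 2) ℤ_[l]) + Z) ^ (l ^ j) =
      X • (1 : Matrix (Fin 2) (Fin 2) ℤ_[l]) + ((l : ℤ_[l]) ^ j * Y) • Z := by
  have hp : Prime (l : ℤ_[l]) := PadicInt.prime_p
  induction j with
  | zero => exact ⟨a, 1, ha, isUnit_one, by simp⟩
  | succ j ih =>
    obtain ⟨X, Y, hX, hY, h⟩ := ih
    obtain ⟨P, R, h1, h2, h3⟩ := pw Z D X Y j hZ hD l
    have hlR : (l : ℤ_[l]) ∣ X * R := by
      have h4 : (l : ℤ_[l]) ∣ X * R - l * X ^ l * Y := (dvd_pow_self _ two_ne_zero).trans h3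
      have h5 : (l : ℤ_[l]) ∣ l * X ^ l * Y := ⟨X ^ l * Y, by ring⟩
      have := dvd_add h4 h5
      rwa [sub_add_cancel] at this
    obtain ⟨Y', hY'⟩ := (hp.dvd_mul.mp hlR).resolve_left (not_dvd_of_unit hX)
    refine ⟨P, Y', ?_, ?_, ?_⟩
    · exact unit_of_dvd_sub (hX.pow l) ((dvd_pow_self _ two_ne_zero).trans h2)
    · have h4 : (l : ℤ_[l]) ∣ X * Y' - X ^ l * Y := by
        obtain ⟨e, he⟩ := h3
        refine ⟨e, ?_⟩
        apply mul_left_cancel₀ hp.ne_zero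
        rw [hY'] at he
        linear_combination he
      exact isUnit_of_mul_isUnit_right (unit_of_dvd_sub ((hX.pow l).mul hY) h4)
    · rw [pow_succ l j, pow_mul, h, h1, hY', pow_succ, mul_assoc]

/-- density of the powers -/
theorem dens (Z : Matrix (Fin 2) (Fin 2) ℤ_[l]) (D a : ℤ_[l]) (ha : IsUnit a)
    (hZ : Z * Z = D • (1 : Matrix (Fin 2) (Fin 2) ℤ_[l])) (hD : (l : ℤ_[l]) ^ 2 ∣ D) (y : ℤ_[l])
    (j : ℕ) : ∃ (k : ℕ) (x y' : ℤ_[l]), IsUnit x ∧ (l : ℤ_[l]) ^ j ∣ y' - y * x ∧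
      (a • (1 : Matrix (Fin 2) (Fin 2) ℤ_[l]) + Z) ^ k =
      x • (1 : Matrix (Fin 2) (Fin 2) ℤ_[l]) + y' • Z := by
  have hp : Prime (l : ℤ_[l]) := PadicInt.prime_p
  have hlD : (l : ℤ_[l]) ∣ D := (dvd_pow_self _ two_ne_zero).trans hD
  induction j with
  | zero => exact ⟨0, 1, 0, isUnit_one, by simp, by simp⟩
  | succ j ih =>
    obtain ⟨k, x, y', hx, ⟨e, he⟩, hk⟩ := ih
    obtain ⟨X, Y, hX, hY, h⟩ := pwl Z D a ha hZ hD j
    have hu : IsUnit (Y * (x - y * y' * D)) := by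
      refine hY.mul (unit_of_dvd_sub hx ?_)
      obtain ⟨f, hf⟩ := hlD
      exact ⟨-(y * y' * f), by rw [hf]; ring⟩
    -- choice of `c`
    obtain ⟨c, hc⟩ : ∃ c : ℕ, (l : ℤ_[l]) ∣ X * e + c * (Y * (x - y * y' * D)) := by
      obtain ⟨v, hv⟩ := hu.exists_right_inv
      set z : ℤ_[l] := -(X * e * v) with hz
      refine ⟨(PadicInt.toZModPow 1 z : ZMod (l ^ 1)).val, ?_⟩
      have hne : NeZero (l ^ 1) := ⟨pow_ne_zero _ (Fact.out : l.Prime).ne_zero⟩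
      have h5 : (l : ℤ_[l]) ^ 1 ∣ ((PadicInt.toZModPow 1 z : ZMod (l ^ 1)).val : ℤ_[l]) - z := by
        rw [← Ideal.mem_span_singleton, ← PadicInt.ker_toZModPow, RingHom.mem_ker, map_sub,
          map_natCast, ZMod.natCast_zmod_val, sub_self]
      rw [pow_one] at h5
      obtain ⟨f, hf⟩ := h5
      refine ⟨f * (Y * (x - y * y' * D)), ?_⟩
      have h6 : (((PadicInt.toZModPow 1 z : ZMod (l ^ 1)).val : ℕ) : ℤ_[l]) = z + l * f := by
        rw [← hf]; ring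
      rw [h6, hz]
      linear_combination -(X * e) * hv
    obtain ⟨P, R, h1, h2, h3⟩ := pw Z D X Y j hZ hD c
    have hPu : IsUnit P := unit_of_dvd_sub (hX.pow c) ((dvd_pow_self _ two_ne_zero).trans h2)
    refine ⟨k + l ^ j * c, x * P + y' * ((l : ℤ_[l]) ^ j * R) * D,
      x * ((l : ℤ_[l]) ^ j * R) + y' * P, ?_, ?_, ?_⟩
    · refine unit_of_dvd_sub (hx.mul hPu) ?_
      obtain ⟨f, hf⟩ := hlD
      exact ⟨y' * ((l : ℤ_[l]) ^ j * R) * f, by rw [hf]; ring⟩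
    · have h4 : x * ((l : ℤ_[l]) ^ j * R) + y' * P -
          y * (x * P + y' * ((l : ℤ_[l]) ^ j * R) * D) =
          (l : ℤ_[l]) ^ j * (P * e + R * (x - y * y' * D)) := by
        linear_combination P * he
      rw [h4, pow_succ]
      refine mul_dvd_mul_left _ ?_
      -- multiply by the unit `X`
      have h5 : (l : ℤ_[l]) ∣ X * (P * e + R * (x - y * y' * D)) := by
        obtain ⟨f, hf⟩ := (dvd_pow_self (l : ℤ_[l]) two_ne_zero).trans h2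
        obtain ⟨g, hg⟩ := (dvd_pow_self (l : ℤ_[l]) two_ne_zero).trans h3
        obtain ⟨q, hq⟩ := hc
        refine ⟨X * f * e + g * (x - y * y' * D) + X ^ c * q, ?_⟩
        linear_combination X * e * hf + (x - y * y' * D) * hg + X ^ c * hq
      exact (hp.dvd_mul.mp h5).resolve_left (not_dvd_of_unit hX)
    · rw [pow_add, pow_mul, hk, h, h1, Matrix.add_mul, Matrix.mul_add, Matrix.mul_add]
      simp only [Matrix.smul_mul, Matrix.mul_smul, Matrix.one_mul, Matrix.mul_one, hZ, smul_smul]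
      ext a' b'
      simp only [Matrix.add_apply, Matrix.smul_apply, smul_eq_mul]
      ring

theorem cancel_sq {x y : ℤ_[l]} (hx : x ≠ 0) (h : IsSquare (x ^ 2 * y)) : IsSquare y := by
  obtain ⟨w, hw⟩ := h
  have h1 : x ^ 2 ∣ w ^ 2 := ⟨y, by rw [hw]; ring⟩
  obtain ⟨v, rfl⟩ := (UniqueFactorizationMonoid.pow_dvd_pow_iff_dvd two_ne_zero).mp h1
  exact ⟨v, mul_left_cancel₀ (pow_ne_zero 2 hx) (by linear_combination hw)⟩

/-- all `theta` -/
theorem all_theta (Z B : Matrix (Fin 2) (Fin 2) ℤ_[l]) (D a d : ℤ_[l]) (ha : IsUnit a)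
    (hZ : Z * Z = D • (1 : Matrix (Fin 2) (Fin 2) ℤ_[l])) (hD : (l : ℤ_[l]) ^ 2 ∣ D)
    (h : ∀ k : ℕ, IsSquare (d * dsc ((a • (1 : Matrix (Fin 2) (Fin 2) ℤ_[l]) + Z) ^ k * B)))
    (θ : ℤ_[l]) :
    IsSquare (d * dsc (((1 : Matrix (Fin 2) (Fin 2) ℤ_[l]) + θ • Z) * B)) := by
  have hl : l.Prime := Fact.out
  let f : ℤ_[l] → ℤ_[l] := fun θ => d * dsc (((1 : Matrix (Fin 2) (Fin 2) ℤ_[l]) + θ • Z) * B)
  have hf : Continuous f := by
    have : f = fun θ => d * dsc (((1 : Matrix (Fin 2) (Fin 2) ℤ_[l]) + θ • Z) * B) := rfl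
    rw [this]
    simp only [dsc, Matrix.mul_apply, Fin.sum_univ_two, Matrix.add_apply, Matrix.smul_apply,
      smul_eq_mul]
    fun_prop
  have hcl : IsClosed (f ⁻¹' {x : ℤ_[l] | IsSquare x}) := gl_sq_closed.preimage hf
  change θ ∈ f ⁻¹' {x : ℤ_[l] | IsSquare x}
  rw [← hcl.closure_eq, Metric.mem_closure_iff]
  intro ε hε
  have hl1 : (1 : ℝ) < l := by exact_mod_cast hl.one_lt
  obtain ⟨j, hj⟩ : ∃ j : ℕ, ((l : ℝ)⁻¹) ^ j < ε :=
    exists_pow_lt_of_lt_one hε (inv_lt_one_of_one_lt₀ hl1)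
  obtain ⟨k, x, y', hx, hy', hk⟩ := dens Z D a ha hZ hD θ j
  obtain ⟨v, hv⟩ := hx.exists_right_inv
  have hx0 : x ≠ 0 := hx.ne_zero
  refine ⟨y' * v, ?_, ?_⟩
  · change IsSquare (d * dsc (((1 : Matrix (Fin 2) (Fin 2) ℤ_[l]) + (y' * v) • Z) * B))
    have h1 := h k
    rw [hk] at h1
    apply cancel_sq hx0
    have h2 : x • (1 : Matrix (Fin 2) (Fin 2) ℤ_[l]) + y' • Z =
        x • ((1 : Matrix (Fin 2) (Fin 2) ℤ_[l]) + (y' * v) • Z) := by
      rw [smul_add, smul_smul]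
      congr 2
      linear_combination -y' * hv
    have h3 : dsc (x • ((1 : Matrix (Fin 2) (Fin 2) ℤ_[l]) + (y' * v) • Z) * B) =
        x ^ 2 * dsc (((1 : Matrix (Fin 2) (Fin 2) ℤ_[l]) + (y' * v) • Z) * B) := by
      rw [Matrix.smul_mul]
      simp only [dsc, Matrix.smul_apply, smul_eq_mul]
      ring
    rw [h2, h3] at h1
    rw [show x ^ 2 * (d * dsc (((1 : Matrix (Fin 2) (Fin 2) ℤ_[l]) + (y' * v) • Z) * B)) =
      d * (x ^ 2 * dsc (((1 : Matrix (Fin 2) (Fin 2) ℤ_[l]) + (y' * v) • Z) * B)) by ring]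
    exact h1
  · rw [dist_comm, dist_eq_norm]
    have h1 : (l : ℤ_[l]) ^ j ∣ y' * v - θ := by
      have : y' * v - θ = (y' - θ * x) * v := by linear_combination θ * hv
      rw [this]
      exact Dvd.dvd.mul_right hy' _
    have h2 : ‖y' * v - θ‖ ≤ (l : ℝ) ^ (-(j : ℤ)) := by
      rw [PadicInt.norm_le_pow_iff_mem_span_pow, Ideal.mem_span_singleton]
      exact h1
    have h3 : (l : ℝ) ^ (-(j : ℤ)) = ((l : ℝ)⁻¹) ^ j := by
      rw [zpow_neg, zpow_natCast, ← inv_pow]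
    linarith

/-- non squares are open -/
theorem notsq_open (w : ℤ_[l]) (hw : ¬ IsSquare w) :
    ∃ e : ℕ, ∀ z : ℤ_[l], (l : ℤ_[l]) ^ e ∣ z - w → ¬ IsSquare z := by
  have hl : l.Prime := Fact.out
  have ho : IsOpen {x : ℤ_[l] | IsSquare x}ᶜ := gl_sq_closed.isOpen_compl
  obtain ⟨ε, hε, h⟩ := Metric.isOpen_iff.mp ho w hw
  have hl1 : (1 : ℝ) < l := by exact_mod_cast hl.one_lt
  obtain ⟨j, hj⟩ : ∃ j : ℕ, ((l : ℝ)⁻¹) ^ j < ε :=
    exists_pow_lt_of_lt_one hε (inv_lt_one_of_one_lt₀ hl1)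
  refine ⟨j, fun z hz => ?_⟩
  have h1 : z ∈ Metric.ball w ε := by
    rw [Metric.mem_ball, dist_eq_norm]
    have h2 : ‖z - w‖ ≤ (l : ℝ) ^ (-(j : ℤ)) := by
      rw [PadicInt.norm_le_pow_iff_mem_span_pow, Ideal.mem_span_singleton]
      exact hz
    have h3 : (l : ℝ) ^ (-(j : ℤ)) = ((l : ℝ)⁻¹) ^ j := by
      rw [zpow_neg, zpow_natCast, ← inv_pow]
    linarith
  exact h h1

theorem dvd_pow_of_ne {x : ℤ_[l]} (hx : x ≠ 0) : ∃ J : ℕ, x ∣ (l : ℤ_[l]) ^ J := by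
  refine ⟨x.valuation, ?_⟩
  set w := PadicInt.unitCoeff hx
  have hw : x = (w : ℤ_[l]) * (l : ℤ_[l]) ^ x.valuation := PadicInt.unitCoeff_spec hx
  refine ⟨((w⁻¹ : ℤ_[l]ˣ) : ℤ_[l]), ?_⟩
  have : (w : ℤ_[l]) * ((w⁻¹ : ℤ_[l]ˣ) : ℤ_[l]) = 1 := by
    rw [← Units.val_mul, mul_inv_cancel, Units.val_one]
  conv_rhs => rw [hw]
  linear_combination -((l : ℤ_[l]) ^ x.valuation) * this

/-- the algebraic core: `Z = (z b; c -z)`, `B = (p q; r s)` -/
theorem core (z b c D d c1 w0 p q r s : ℤ_[l]) (e0 : ℕ) (hDz : D = z ^ 2 + b * c)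
    (hd : ¬ IsSquare d) (hc1 : d * D = c1 ^ 2) (hc10 : c1 ≠ 0)
    (he0 : ∀ y : ℤ_[l], (l : ℤ_[l]) ^ e0 ∣ y - (w0 ^ 2 + 1) → ¬ IsSquare y)
    (hDe : (l : ℤ_[l]) ^ e0 ∣ D) (hD2 : (l : ℤ_[l]) ^ 2 ∣ D)
    (hp : (2 * D * c1 * l) ∣ p - 1) (hs : (2 * D * c1 * l) ∣ s - 1)
    (hq : (2 * D * c1 * l) ∣ q) (hr : (2 * D * c1 * l) ∣ r)
    (hsq : ∀ θ : ℤ_[l], IsSquare (d * dsc (((1 : Matrix (Fin 2) (Fin 2) ℤ_[l]) +
      θ • !![z, b; c, -z]) * !![p, q; r, s]))) :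
    2 * D * p = D * (p + s) + (z * p + b * r + c * q - z * s) * z ∧
    2 * D * q = (z * p + b * r + c * q - z * s) * b ∧
    2 * D * r = (z * p + b * r + c * q - z * s) * c ∧
    2 * D * s = D * (p + s) - (z * p + b * r + c * q - z * s) * z := by
  have hlp : Prime (l : ℤ_[l]) := PadicInt.prime_p
  have hD0 : D ≠ 0 := by
    rintro rfl
    rw [mul_zero] at hc1
    exact hc10 (pow_eq_zero_iff two_ne_zero |>.mp hc1.symm)
  have hd0 : d ≠ 0 := by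
    rintro rfl
    exact hd ⟨0, by simp⟩
  set t := p + s with ht
  set σ := z * p + b * r + c * q - z * s with hσ
  set w1 := 2 * D * p - D * t - σ * z with hw1
  set w2 := 2 * D * q - σ * b with hw2
  set w3 := 2 * D * r - σ * c with hw3
  have hw4 : 2 * D * s - D * t + σ * z = -w1 := by rw [hw1, ht]; ring
  have htr : 2 * z * w1 + b * w3 + c * w2 = 0 := by
    rw [hw1, hw2, hw3, ht, hσ, hDz]; ring
  set Q := d * (w1 ^ 2 + w2 * w3) with hQ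
  -- the identity
  have hid : ∀ θ : ℤ_[l], D ^ 2 * (d * dsc (((1 : Matrix (Fin 2) (Fin 2) ℤ_[l]) +
      θ • !![z, b; c, -z]) * !![p, q; r, s])) =
      (c1 * (σ + θ * D * t)) ^ 2 + (1 - D * θ ^ 2) * Q := by
    intro θ
    have h1 : (c1 * (σ + θ * D * t)) ^ 2 = d * D * (σ + θ * D * t) ^ 2 := by
      rw [mul_pow, ← hc1]
    rw [h1]
    simp only [dsc, Matrix.mul_apply, Fin.sum_univ_two, Matrix.add_apply, Matrix.smul_apply,
      smul_eq_mul, Matrix.of_apply, Matrix.cons_val_zero, Matrix.cons_val_one, Matrix.one_apply]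
    simp only [Fin.isValue, if_true, zero_ne_one, one_ne_zero, if_false]
    rw [hQ, hw1, hw2, hw3, ht, hσ, hDz]
    ring
  have hsq' : ∀ θ : ℤ_[l], IsSquare ((c1 * (σ + θ * D * t)) ^ 2 + (1 - D * θ ^ 2) * Q) := by
    intro θ
    rw [← hid]
    exact (IsSquare.sq D).mul (hsq θ)
  -- divisibilities
  obtain ⟨p', hp'⟩ := hp
  obtain ⟨s', hs'⟩ := hs
  obtain ⟨q', hq'⟩ := hq
  obtain ⟨r', hr'⟩ := hr
  have h20 : (2 : ℤ_[l]) ≠ 0 := by norm_num
  set t' := 1 + D * c1 * l * (p' + s') with ht'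
  have htt : t = 2 * t' := by
    rw [ht, ht']
    linear_combination hp' + hs'
  have ht'u : IsUnit t' := by
    refine unit_of_dvd_sub isUnit_one ⟨D * c1 * (p' + s'), ?_⟩
    rw [ht']; ring
  obtain ⟨v, hv⟩ := ht'u.exists_right_inv
  set σ' := z * p' + b * r' + c * q' - z * s' with hσ'
  have hσσ : σ = 2 * D * c1 * l * σ' := by
    rw [hσ, hσ']
    linear_combination z * hp' - z * hs' + b * hr' + c * hq'
  set w1' := 2 * D * p' - D * (p' + s') - σ' * z with hw1'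
  set w2' := 2 * D * q' - σ' * b with hw2'
  set w3' := 2 * D * r' - σ' * c with hw3'
  set E := 2 * D * c1 * (l : ℤ_[l]) with hE
  have e1 : w1 = E * w1' := by
    rw [hw1, hw1', hσσ, ht]
    linear_combination D * hp' - D * hs'
  have e2 : w2 = E * w2' := by
    rw [hw2, hw2', hσσ, hq']
    ring
  have e3 : w3 = E * w3' := by
    rw [hw3, hw3', hσσ, hr']
    ring
  -- `theta*`
  set θ₁ := -(c1 * l * σ' * v) with hθ₁
  have hθ₁' : σ + θ₁ * D * t = 0 := by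
    rw [hσσ, hθ₁, htt]
    linear_combination -(2 * D * c1 * l * σ') * hv
  have h1 := hsq' θ₁
  rw [hθ₁', mul_zero, zero_pow two_ne_zero, zero_add] at h1
  obtain ⟨B, hB⟩ := h1
  set V := 1 - D * θ₁ ^ 2 with hV
  have hlD : (l : ℤ_[l]) ∣ D := (dvd_pow_self _ two_ne_zero).trans hD2
  have hVu : IsUnit V := by
    refine unit_of_dvd_sub isUnit_one ?_
    rw [hV, sub_sub_cancel_left, dvd_neg]
    exact Dvd.dvd.mul_right hlD _
  obtain ⟨V', hV'⟩ := hVu.exists_right_inv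
  have hEB : E ∣ B := by
    have : E ^ 2 ∣ B ^ 2 := by
      refine ⟨V * (d * (w1' ^ 2 + w2' * w3')), ?_⟩
      rw [pow_two B, ← hB, hQ, e1, e2, e3]
      ring
    exact (UniqueFactorizationMonoid.pow_dvd_pow_iff_dvd two_ne_zero).mp this
  obtain ⟨B', hB'⟩ := hEB
  have hB0 : B = 0 := by
    by_contra hB0
    set φ := l * B' * w0 * v with hφ
    have h2 := hsq' (θ₁ + φ)
    have h3 : c1 * (σ + (θ₁ + φ) * D * t) = B * w0 := by
      have : σ + (θ₁ + φ) * D * t = φ * D * t := by linear_combination hθ₁'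
      rw [this, hφ, htt, hB', hE]
      linear_combination (2 * D * c1 * l * B' * w0) * hv
    rw [h3] at h2
    have h4 : (B * w0) ^ 2 + (1 - D * (θ₁ + φ) ^ 2) * Q =
        B ^ 2 * (w0 ^ 2 + (1 - D * (θ₁ + φ) ^ 2) * V') := by
      have : Q = B ^ 2 * V' := by
        rw [pow_two, ← hB]
        linear_combination -Q * hV'
      rw [this]
      ring
    rw [h4] at h2
    refine he0 _ ?_ (cancel_sq hB0 h2)
    have h5 : w0 ^ 2 + (1 - D * (θ₁ + φ) ^ 2) * V' - (w0 ^ 2 + 1) =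
        D * ((θ₁ ^ 2 - (θ₁ + φ) ^ 2) * V') := by
      have : (1 : ℤ_[l]) = V * V' := hV'.symm
      rw [hV] at hV'
      linear_combination hV'
    rw [h5]
    exact Dvd.dvd.mul_right hDe _
  -- `Q = 0`
  have hQ0 : Q = 0 := by
    rw [hB0, mul_zero] at hB
    exact (mul_eq_zero.mp hB).resolve_left hVu.ne_zero
  have hdet : w1 ^ 2 + w2 * w3 = 0 := (mul_eq_zero.mp hQ0).resolve_left hd0
  have hW2 : w2 = 0 := by
    by_contra hcon
    apply hd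
    have h6 : D * w2 ^ 2 = (z * w2 - b * w1) ^ 2 := by
      rw [hDz]
      linear_combination b * w2 * htr - b ^ 2 * hdet
    refine cancel_sq (mul_ne_zero hD0 hcon) (x := D * w2) ⟨c1 * (z * w2 - b * w1), ?_⟩
    have h7 : (D * w2) ^ 2 * d = (d * D) * (D * w2 ^ 2) := by ring
    rw [h7, h6, hc1]
    ring
  have hW3 : w3 = 0 := by
    by_contra hcon
    apply hd
    have h6 : D * w3 ^ 2 = (z * w3 - c * w1) ^ 2 := by
      rw [hDz]
      linear_combination c * w3 * htr - c ^ 2 * hdet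
    refine cancel_sq (mul_ne_zero hD0 hcon) (x := D * w3) ⟨c1 * (z * w3 - c * w1), ?_⟩
    have h7 : (D * w3) ^ 2 * d = (d * D) * (D * w3 ^ 2) := by ring
    rw [h7, h6, hc1]
    ring
  have hW1 : w1 = 0 := by
    rw [hW2, zero_mul, add_zero] at hdet
    exact (pow_eq_zero_iff two_ne_zero).mp hdet
  refine ⟨?_, ?_, ?_, ?_⟩
  · linear_combination hW1
  · linear_combination hW2
  · linear_combination hW3
  · linear_combination hw4 - hW1

theorem two_unit (h2 : l ≠ 2) : IsUnit (2 : ℤ_[l]) := by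
  have hl : l.Prime := Fact.out
  have h3 : ¬ (l : ℤ) ∣ 2 := by
    intro h4
    have h5 : l ∣ 2 := by exact_mod_cast h4
    exact h2 ((Nat.prime_dvd_prime_iff_eq hl Nat.prime_two).mp h5)
  have h6 : ‖((2 : ℤ) : ℤ_[l])‖ = 1 := by
    by_contra h7
    have h8 : ‖((2 : ℤ) : ℤ_[l])‖ < 1 := lt_of_le_of_ne (PadicInt.norm_le_one _) h7
    exact h3 ((PadicInt.norm_int_lt_one_iff_dvd 2).mp h8)
  have := PadicInt.isUnit_iff.mpr h6
  exact_mod_cast this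

theorem two_dvd {x : ℤ_[l]} (h : (l : ℤ_[l]) ∣ x) : (2 : ℤ_[l]) ∣ x := by
  rcases eq_or_ne l 2 with h2 | h2
  · have : ((2 : ℕ) : ℤ_[l]) ∣ x := by rw [← h2]; exact h
    exact_mod_cast this
  · exact (two_unit h2).dvd

theorem half_dvd {x : ℤ_[l]} (K : ℕ) (h : (l : ℤ_[l]) ^ (K + 1) ∣ 2 * x) :
    (l : ℤ_[l]) ^ K ∣ x := by
  rcases eq_or_ne l 2 with h2 | h2
  · have h3 : (l : ℤ_[l]) = 2 := by
      have : (l : ℤ_[l]) = ((2 : ℕ) : ℤ_[l]) := by rw [← h2]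
      exact_mod_cast this
    rw [pow_succ, mul_comm, ← h3] at h
    exact (mul_dvd_mul_iff_left (PadicInt.prime_p (p := l)).ne_zero).mp h
  · obtain ⟨u, hu⟩ := (two_unit h2).exists_left_inv
    have h3 : (l : ℤ_[l]) ^ K ∣ 2 * x := (pow_dvd_pow _ (Nat.le_succ K)).trans h
    have h4 : x = u * (2 * x) := by linear_combination -x * hu
    rw [h4]
    exact Dvd.dvd.mul_left h3 _

theorem comm_core (D z b c p q r s t σ p' q' r' s' t' σ' : ℤ_[l]) (hD : D ≠ 0)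
    (h1 : 2 * D * p = D * t + σ * z) (h2 : 2 * D * q = σ * b) (h3 : 2 * D * r = σ * c)
    (h4 : 2 * D * s = D * t - σ * z)
    (h1' : 2 * D * p' = D * t' + σ' * z) (h2' : 2 * D * q' = σ' * b)
    (h3' : 2 * D * r' = σ' * c) (h4' : 2 * D * s' = D * t' - σ' * z) :
    q * r' = q' * r ∧ p * q' + q * s' = p' * q + q' * s ∧ r * p' + s * r' = r' * p + s' * r := by
  have h0 : (2 * D) * (2 * D) ≠ 0 := by
    have : (2 : ℤ_[l]) ≠ 0 := by norm_num
    exact mul_ne_zero (mul_ne_zero this hD) (mul_ne_zero this hD)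
  refine ⟨?_, ?_, ?_⟩
  · apply mul_left_cancel₀ h0
    linear_combination (2 * D * r') * h2 + σ * b * h3' - (2 * D * r) * h2' - σ' * b * h3
  · apply mul_left_cancel₀ h0
    linear_combination (2 * D * q') * h1 + (D * t + σ * z) * h2' + (2 * D * s') * h2 +
      σ * b * h4' - (2 * D * q) * h1' - (D * t' + σ' * z) * h2 - (2 * D * s) * h2' - σ' * b * h4
  · apply mul_left_cancel₀ h0
    linear_combination (2 * D * p') * h3 + σ * c * h1' + (2 * D * r') * h4 +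
      (D * t - σ * z) * h3' - (2 * D * p) * h3' - σ' * c * h1 - (2 * D * r) * h4' -
      (D * t' - σ' * z) * h3

end GLD

open GLD in
theorem st_GLD : ST_GLD := by
  intro Γ _ _ _ l _ r hr d N hd hN hsq
  have hl : l.Prime := Fact.out
  by_cases hds : IsSquare d
  · obtain ⟨s, hs⟩ := hds
    have hs0 : s ≠ 0 := by
      rintro rfl
      exact hd (by rw [hs, mul_zero])
    have h1 : ∀ g ∈ (⊤ : Subgroup Γ),
        IsSquare (dsc ((r g : Matrix (Fin 2) (Fin 2) ℤ_[l]) ^ N)) := by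
      intro g _
      have := hsq g
      rw [hs] at this
      exact cancel_sq hs0 (by rw [pow_two]; exact this)
    obtain ⟨H, hH, -, v, hv, hvH⟩ := gl2_line r hr ⊤ isOpen_univ N hN h1
    exact ⟨H, hH, Or.inl ⟨v, hv, hvH⟩⟩
  obtain ⟨w0, hw0⟩ := gl_not_sq (l := l)
  obtain ⟨e0, he0⟩ := notsq_open (w0 ^ 2 + 1) hw0
  -- the level
  set K1 := N + 1 + e0 with hK1
  have hKN : ¬ (l : ℤ_[l]) ^ (K1 + 1) ∣ (N : ℤ_[l]) := by
    intro h
    have h1 : (l : ℤ_[l]) ^ (K1 + 1) ∣ ((N : ℤ) : ℤ_[l]) := by exact_mod_cast h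
    rw [PadicInt.pow_p_dvd_int_iff] at h1
    have h2 : l ^ (K1 + 1) ∣ N := by exact_mod_cast h1
    have h3 := Nat.le_of_dvd (Nat.pos_of_ne_zero hN) h2
    have h4 : K1 + 1 < l ^ (K1 + 1) := Nat.lt_pow_self hl.one_lt
    omega
  obtain ⟨G₁, hG₁, hG₁m⟩ := gl_open r hr (K1 + 1)
  have hsq1 : ∀ g ∈ G₁, IsSquare (d * dsc (r g : Matrix (Fin 2) (Fin 2) ℤ_[l])) := by
    intro g hg
    obtain ⟨U, V, h1, h2⟩ := gl_pow_eq (r g : Matrix (Fin 2) (Fin 2) ℤ_[l]) N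
    obtain ⟨h3, -⟩ := h2 _ ((hG₁m g).mp hg)
    have hU : U ≠ 0 := by
      rintro rfl
      rw [zero_sub, dvd_neg] at h3
      exact hKN h3
    have h4 := hsq g
    rw [h1, dsc_lin] at h4
    exact cancel_sq hU (by rw [mul_left_comm]; exact h4)
  by_cases hcase : ∀ g ∈ G₁, dsc (r g : Matrix (Fin 2) (Fin 2) ℤ_[l]) = 0
  · obtain ⟨H, hH, -, v, hv, hvH⟩ := gl2_line r hr G₁ hG₁ 1 one_ne_zero (fun g hg => by
      rw [pow_one, hcase g hg]
      exact ⟨0, by simp⟩)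
    exact ⟨H, hH, Or.inl ⟨v, hv, hvH⟩⟩
  push Not at hcase
  obtain ⟨g₀, hg₀, hg₀d⟩ := hcase
  set A : Matrix (Fin 2) (Fin 2) ℤ_[l] := (r g₀ : Matrix (Fin 2) (Fin 2) ℤ_[l]) with hA
  have hAc : Cg (K1 + 1) A := (hG₁m g₀).mp hg₀
  have h00 : (l : ℤ_[l]) ^ (K1 + 1) ∣ A 0 0 - 1 := by simpa using hAc 0 0
  have h11 : (l : ℤ_[l]) ^ (K1 + 1) ∣ A 1 1 - 1 := by simpa using hAc 1 1
  have h01 : (l : ℤ_[l]) ^ (K1 + 1) ∣ A 0 1 := by simpa using hAc 0 1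
  have h10 : (l : ℤ_[l]) ^ (K1 + 1) ∣ A 1 0 := by simpa using hAc 1 0
  obtain ⟨a', ha'⟩ : (2 : ℤ_[l]) ∣ (A 0 0 - 1) + (A 1 1 - 1) :=
    two_dvd ((dvd_pow_self _ (Nat.succ_ne_zero K1)).trans (dvd_add h00 h11))
  set a := 1 + a' with ha
  have haa : A 0 0 + A 1 1 = 2 * a := by rw [ha]; linear_combination ha'
  have hau : IsUnit a := by
    refine gl_unit_of_dvd (k := K1) (by omega) (half_dvd K1 ?_)
    have : 2 * (a - 1) = (A 0 0 - 1) + (A 1 1 - 1) := by rw [ha, ha']; ring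
    rw [this]
    exact dvd_add h00 h11
  set z := A 0 0 - a with hz
  set b := A 0 1 with hb
  set c := A 1 0 with hc
  set D := z ^ 2 + b * c with hD
  have hzd : (l : ℤ_[l]) ^ K1 ∣ z := by
    refine half_dvd K1 ?_
    have : 2 * z = (A 0 0 - 1) - (A 1 1 - 1) := by rw [hz]; linear_combination haa
    rw [this]
    exact dvd_sub h00 h11
  have hK1b : (l : ℤ_[l]) ^ K1 ∣ b := (pow_dvd_pow _ (Nat.le_succ K1)).trans h01
  have hK1c : (l : ℤ_[l]) ^ K1 ∣ c := (pow_dvd_pow _ (Nat.le_succ K1)).trans h10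
  have hK2 : (l : ℤ_[l]) ^ (K1 + K1) ∣ D := by
    rw [hD, pow_add, pow_two]
    exact dvd_add (mul_dvd_mul hzd hzd) (mul_dvd_mul hK1b hK1c)
  have hDe : (l : ℤ_[l]) ^ e0 ∣ D := (pow_dvd_pow _ (by omega)).trans hK2
  have hD2 : (l : ℤ_[l]) ^ 2 ∣ D := (pow_dvd_pow _ (by omega)).trans hK2
  have hdscA : dsc A = 4 * D := by
    have h1 : A 1 1 = 2 * a - A 0 0 := by linear_combination haa
    rw [dsc, h1, hD, hz, ← hb, ← hc]
    ring
  have hD0 : D ≠ 0 := by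
    intro h
    exact hg₀d (by rw [hdscA, h, mul_zero])
  obtain ⟨c1, hc1⟩ : ∃ c1, d * D = c1 ^ 2 := by
    obtain ⟨w, hw⟩ := hsq1 g₀ hg₀
    rw [← hA, hdscA] at hw
    have h1 : IsSquare ((2 : ℤ_[l]) ^ 2 * (d * D)) := ⟨w, by rw [← hw]; ring⟩
    obtain ⟨c1, h2⟩ := cancel_sq (by norm_num) h1
    exact ⟨c1, by rw [h2]; ring⟩
  have hc10 : c1 ≠ 0 := by
    rintro rfl
    rw [zero_pow two_ne_zero] at hc1
    exact (mul_ne_zero hd hD0) hc1
  have hE0 : 2 * D * c1 * (l : ℤ_[l]) ≠ 0 :=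
    mul_ne_zero (mul_ne_zero (mul_ne_zero (by norm_num) hD0) hc10) PadicInt.prime_p.ne_zero
  obtain ⟨J, hJ⟩ := dvd_pow_of_ne hE0
  obtain ⟨G₂, hG₂, hG₂m⟩ := gl_open r hr J
  set Z : Matrix (Fin 2) (Fin 2) ℤ_[l] := !![z, b; c, -z] with hZdef
  have hAZ : A = a • (1 : Matrix (Fin 2) (Fin 2) ℤ_[l]) + Z := by
    have h1 : A 1 1 = 2 * a - A 0 0 := by linear_combination haa
    ext i j
    fin_cases i <;> fin_cases j <;>
      simp [hZdef, hz, hb, hc]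
    rw [h1]
    ring
  have hZZ : Z * Z = D • (1 : Matrix (Fin 2) (Fin 2) ℤ_[l]) := by
    ext i j
    fin_cases i <;> fin_cases j <;>
      simp [hZdef, hD, Matrix.mul_apply, Fin.sum_univ_two] <;> ring
  have key : ∀ h ∈ G₁ ⊓ G₂, ∃ t σ : ℤ_[l],
      2 * D * (r h : Matrix (Fin 2) (Fin 2) ℤ_[l]) 0 0 = D * t + σ * z ∧
      2 * D * (r h : Matrix (Fin 2) (Fin 2) ℤ_[l]) 0 1 = σ * b ∧
      2 * D * (r h : Matrix (Fin 2) (Fin 2) ℤ_[l]) 1 0 = σ * c ∧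
      2 * D * (r h : Matrix (Fin 2) (Fin 2) ℤ_[l]) 1 1 = D * t - σ * z := by
    intro h hh
    set B : Matrix (Fin 2) (Fin 2) ℤ_[l] := (r h : Matrix (Fin 2) (Fin 2) ℤ_[l]) with hBdef
    have hBc : Cg J B := (hG₂m h).mp hh.2
    have b00 : (l : ℤ_[l]) ^ J ∣ B 0 0 - 1 := by simpa using hBc 0 0
    have b11 : (l : ℤ_[l]) ^ J ∣ B 1 1 - 1 := by simpa using hBc 1 1
    have b01 : (l : ℤ_[l]) ^ J ∣ B 0 1 := by simpa using hBc 0 1
    have b10 : (l : ℤ_[l]) ^ J ∣ B 1 0 := by simpa using hBc 1 0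
    have h1 := core z b c D d c1 w0 (B 0 0) (B 0 1) (B 1 0) (B 1 1) e0 hD hds hc1 hc10 he0 hDe
      hD2 (hJ.trans b00) (hJ.trans b11) (hJ.trans b01) (hJ.trans b10) (fun θ => by
        rw [← Matrix.eta_fin_two B]
        refine all_theta Z B D a d hau hZZ hD2 (fun k => ?_) θ
        rw [← hAZ]
        have h2 := hsq1 (g₀ ^ k * h) (mul_mem (pow_mem hg₀ k) hh.1)
        rwa [map_mul, map_pow, Units.val_mul, Units.val_pow_eq_pow_val] at h2)
    exact ⟨_, _, h1.1, h1.2.1, h1.2.2.1, h1.2.2.2⟩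
  refine ⟨G₁ ⊓ G₂, by rw [Subgroup.coe_inf]; exact hG₁.inter hG₂, Or.inr fun g hg g' hg' => ?_⟩
  obtain ⟨t, σ, h1, h2, h3, h4⟩ := key g hg
  obtain ⟨t', σ', h1', h2', h3', h4'⟩ := key g' hg'
  obtain ⟨k1, k2, k3⟩ := comm_core D z b c _ _ _ _ t σ _ _ _ _ t' σ' hD0 h1 h2 h3 h4 h1' h2' h3' h4'
  apply Units.ext
  rw [Units.val_mul, Units.val_mul]
  ext i j
  fin_cases i <;> fin_cases j <;> simp only [Matrix.mul_apply, Fin.sum_univ_two, Fin.zero_eta,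
    Fin.mk_one, Fin.isValue]
  · linear_combination k1
  · linear_combination k2
  · linear_combination k3
  · linear_combination -k1

end REC
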